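import Mathlib
import Pool.Agent.K7.H50.OG.Basic

set_option autoImplicit false

/-! OG job HER: heredity from the word analysis. -/

namespace Pool.Agent.K7.H11.OGHER

open Pool.Agent.K7.H50.OG

theorem gd_mono {n k : ℕ} {H E : Gr} (h : ∀ i j, 1 ≤ i → i < j → j ≤ k → H i j → E i j)
    (hE : Gd n k E) : Gd n k H := by
  intro R
  rcases hE R with ⟨f, h1, h2, h3⟩ | h1
  · exact Or.inl ⟨f, h1, h2, fun i j a b c d => h3 i j a b c (h i j a b c d)⟩
  · exact Or.inr h1

theorem gd_one (k : ℕ) (E : Gr) : Gd 1 k E := by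
  intro R
  right
  exact ⟨fun _ => 1, fun i h1 h2 => ⟨le_rfl, by simp⟩, fun i j h1 h2 h3 => by omega⟩

theorem gd_two (k : ℕ) (E : Gr) (hk : 1 ≤ k) : Gd 2 k E := by
  intro R
  by_cases h : ∃ x y, 1 ≤ x ∧ x < y ∧ y ≤ k ∧ ¬ R x y
  · right
    obtain ⟨x, y, h1, h2, h3, h4⟩ := h
    refine ⟨fun i => if i = 1 then x else y, fun i h5 h6 => ?_, fun i j h5 h6 h7 => ?_⟩
    · try dsimp only
      split_ifs <;> omega
    · have e1 : i = 1 := by omega
      have e2 : j = 2 := by omega
      subst e1 e2
      simp only [if_true, if_neg (show ¬ (2 : ℕ) = 1 by omega)]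
      exact ⟨h2, h4⟩
  · left
    push Not at h
    refine ⟨fun i => i, fun i h5 h6 => ⟨h5, ?_⟩, fun i j _ h5 _ => h5,
      fun i j h5 h6 h7 _ => h i j h5 h6 h7⟩
    show i ≤ (2 - 1) * (k - 1) + 1
    omega

theorem gd_single (n : ℕ) (E : Gr) : Gd n 1 E := by
  intro R
  left
  exact ⟨fun _ => 1, fun i h1 h2 => ⟨le_rfl, by simp⟩, fun i j h1 h2 h3 => by omega,
    fun i j h1 h2 h3 => by omega⟩

theorem con_left {k c : ℕ} {E : Gr} (hE : Con k E) (_hc : 1 ≤ c) (hck : c ≤ k)
    (hj : ∀ i j, 1 ≤ i → i < c → c < j → j ≤ k → ¬ E i j) : Con c E := by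
  intro S h1 h2
  obtain ⟨a, ha1, ha2, ha3⟩ := h1
  obtain ⟨b, hb1, hb2, hb3⟩ := h2
  obtain ⟨i, j, g1, g2, g3, g4, g5⟩ := hE (fun x => (x ≤ c ∧ S x) ∨ (c < x ∧ S c))
    ⟨a, ha1, by omega, Or.inl ⟨ha2, ha3⟩⟩
    ⟨b, hb1, by omega, by
      rintro (⟨_, h⟩ | ⟨h, _⟩)
      · exact hb3 h
      · omega⟩
  rcases Nat.lt_or_ge c j with h6 | h6
  · rcases Nat.lt_or_ge i c with h7 | h7
    · exact absurd g4 (hj i j g1 h7 h6 g3)
    · exfalso
      rcases Nat.eq_or_lt_of_le h7 with h8 | h8
      · subst h8
        have e1 : ((c ≤ c ∧ S c) ∨ (c < c ∧ S c)) ↔ S c := by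
          constructor
          · rintro (⟨_, h⟩ | ⟨_, h⟩) <;> exact h
          · intro h
            exact Or.inl ⟨le_rfl, h⟩
        have e2 : ((j ≤ c ∧ S j) ∨ (c < j ∧ S c)) ↔ S c := by
          constructor
          · rintro (⟨h, _⟩ | ⟨_, h⟩)
            · omega
            · exact h
          · intro h
            exact Or.inr ⟨h6, h⟩
        have g5' : ((c ≤ c ∧ S c) ∨ (c < c ∧ S c)) ↔ ¬ ((j ≤ c ∧ S j) ∨ (c < j ∧ S c)) := g5
        rw [e1, e2] at g5'
        tauto
      · have e1 : ((i ≤ c ∧ S i) ∨ (c < i ∧ S c)) ↔ S c := by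
          constructor
          · rintro (⟨h, _⟩ | ⟨_, h⟩)
            · omega
            · exact h
          · intro h
            exact Or.inr ⟨h8, h⟩
        have e2 : ((j ≤ c ∧ S j) ∨ (c < j ∧ S c)) ↔ S c := by
          constructor
          · rintro (⟨h, _⟩ | ⟨_, h⟩)
            · omega
            · exact h
          · intro h
            exact Or.inr ⟨h6, h⟩
        have g5' : ((i ≤ c ∧ S i) ∨ (c < i ∧ S c)) ↔ ¬ ((j ≤ c ∧ S j) ∨ (c < j ∧ S c)) := g5
        rw [e1, e2] at g5'
        tauto
  · refine ⟨i, j, g1, g2, h6, g4, ?_⟩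
    have e1 : ((i ≤ c ∧ S i) ∨ (c < i ∧ S c)) ↔ S i := by
      constructor
      · rintro (⟨_, h⟩ | ⟨h, _⟩)
        · exact h
        · omega
      · intro h
        exact Or.inl ⟨by omega, h⟩
    have e2 : ((j ≤ c ∧ S j) ∨ (c < j ∧ S c)) ↔ S j := by
      constructor
      · rintro (⟨_, h⟩ | ⟨h, _⟩)
        · exact h
        · omega
      · intro h
        exact Or.inl ⟨h6, h⟩
    have g5' : ((i ≤ c ∧ S i) ∨ (c < i ∧ S c)) ↔ ¬ ((j ≤ c ∧ S j) ∨ (c < j ∧ S c)) := g5
    rw [e1, e2] at g5'
    exact g5'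

theorem con_right {k c : ℕ} {E : Gr} (hE : Con k E) (_hc : 1 ≤ c) (hck : c ≤ k)
    (hj : ∀ i j, 1 ≤ i → i < c → c < j → j ≤ k → ¬ E i j) :
    Con (k - c + 1) (fun i j => E (i + c - 1) (j + c - 1)) := by
  intro S h1 h2
  obtain ⟨a, ha1, ha2, ha3⟩ := h1
  obtain ⟨b, hb1, hb2, hb3⟩ := h2
  obtain ⟨i, j, g1, g2, g3, g4, g5⟩ := hE (fun x => S (max x c - c + 1))
    ⟨a + c - 1, by omega, by omega, by
      have : max (a + c - 1) c - c + 1 = a := by omega
      try dsimp only
      rw [this]
      exact ha3⟩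
    ⟨b + c - 1, by omega, by omega, by
      have : max (b + c - 1) c - c + 1 = b := by omega
      try dsimp only
      rw [this]
      exact hb3⟩
  try dsimp only at g5
  rcases Nat.lt_or_ge i c with h6 | h6
  · rcases Nat.lt_or_ge c j with h7 | h7
    · exact absurd g4 (hj i j g1 h6 h7 g3)
    · exfalso
      have e1 : max i c - c + 1 = 1 := by omega
      have e2 : max j c - c + 1 = 1 := by omega
      rw [e1, e2] at g5
      tauto
  · refine ⟨i - c + 1, j - c + 1, by omega, by omega, by omega, ?_, ?_⟩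
    · have e1 : i - c + 1 + c - 1 = i := by omega
      have e2 : j - c + 1 + c - 1 = j := by omega
      try dsimp only
      rw [e1, e2]
      exact g4
    · have e1 : max i c - c + 1 = i - c + 1 := by omega
      have e2 : max j c - c + 1 = j - c + 1 := by omega
      rw [e1, e2] at g5
      exact g5

theorem mon_three (hMon : StMon) {n k : ℕ} {E : Gr} (hk : 1 ≤ k) (hE : Con k E) (m : ℕ)
    (hm : 1 ≤ m) (hmn : m ≤ n) (hG : Gd n k E) : Gd m k E := by
  induction n, hmn using Nat.le_induction with
  | base => exact hG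
  | succ n hn ih => exact ih (hMon n k E (by omega) hk hE hG)

/-- a connected graph contained in a double star is the double star -/
theorem dd_sub {k a : ℕ} {E : Gr} (hE : Con k E) (ha : 1 ≤ a) (hak : a < k)
    (h : ∀ i j, 1 ≤ i → i < j → j ≤ k → E i j → DD a i j) :
    ∀ i j, 1 ≤ i → i < j → j ≤ k → DD a i j → E i j := by
  have h1 : ∀ i, 1 ≤ i → i < a → E i (a + 1) := by
    intro i hi hia
    obtain ⟨x, y, g1, g2, g3, g4, g5⟩ := hE (fun x => x = i) ⟨i, hi, by omega, rfl⟩
      ⟨a, ha, by omega, by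
        show ¬ a = i
        omega⟩
    try dsimp only at g5
    have g6 := h x y g1 g2 g3 g4
    have g7 : x = i ∨ y = i := by
      by_cases hx : x = i
      · exact Or.inl hx
      · exact Or.inr (by tauto)
    unfold DD at g6
    have g8 : x = i ∧ y = a + 1 := by
      rcases g6 with g6 | g6 <;> rcases g7 with g7 | g7 <;> omega
    rw [← g8.1, ← g8.2]
    exact g4
  have h2 : ∀ j, a + 1 < j → j ≤ k → E a j := by
    intro j hj hjk
    obtain ⟨x, y, g1, g2, g3, g4, g5⟩ := hE (fun x => x = j) ⟨j, by omega, by omega, rfl⟩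
      ⟨a, ha, by omega, by
        show ¬ a = j
        omega⟩
    try dsimp only at g5
    have g6 := h x y g1 g2 g3 g4
    have g7 : x = j ∨ y = j := by
      by_cases hx : x = j
      · exact Or.inl hx
      · exact Or.inr (by tauto)
    unfold DD at g6
    have g8 : x = a ∧ y = j := by
      rcases g6 with g6 | g6 <;> rcases g7 with g7 | g7 <;> omega
    rw [← g8.1, ← g8.2]
    exact g4
  have h3 : E a (a + 1) := by
    obtain ⟨x, y, g1, g2, g3, g4, g5⟩ := hE (fun x => x = a ∨ a + 1 < x)
      ⟨a, ha, by omega, Or.inl rfl⟩ ⟨a + 1, by omega, by omega, by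
        show ¬ (a + 1 = a ∨ a + 1 < a + 1)
        omega⟩
    try dsimp only at g5
    have g6 := h x y g1 g2 g3 g4
    unfold DD at g6
    have g8 : x = a ∧ y = a + 1 := by
      by_cases hx : x = a ∨ a + 1 < x
      · have hy := g5.mp hx
        omega
      · have hy : y = a ∨ a + 1 < y := by
          by_contra hy
          exact hx (g5.mpr hy)
        omega
    rw [← g8.2, ← g8.1]
    exact g4
  intro i j hi hij hjk hd
  unfold DD at hd
  by_cases e1 : i = a
  · by_cases e2 : j = a + 1
    · rw [e1, e2]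
      exact h3
    · rw [e1]
      exact h2 j (by omega) hjk
  · have e2 : j = a + 1 := by omega
    rw [e2]
    exact h1 i hi (by omega)

/-- a connected ordered graph which embeds into a double star lies in a double star -/
theorem sub_dd {h k a : ℕ} {H E : Gr} (hh : 2 ≤ h) (hH : Con h H) {f : ℕ → ℕ}
    (f1 : ∀ i, 1 ≤ i → i ≤ h → 1 ≤ f i ∧ f i ≤ k)
    (f2 : ∀ i j, 1 ≤ i → i < j → j ≤ h → f i < f j)
    (f3 : ∀ i j, 1 ≤ i → i < j → j ≤ h → H i j → E (f i) (f j))
    (hE : ∀ i j, 1 ≤ i → i < j → j ≤ k → E i j → DD a i j) :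
    ∃ a', 1 ≤ a' ∧ a' < h ∧ (∀ i j, 1 ≤ i → i < j → j ≤ h → H i j → DD a' i j) ∧
      (a' = 1 ∨ a' = h - 1 ∨ (f a' = a ∧ f (a' + 1) = a + 1)) := by
  have key : ∀ i j, 1 ≤ i → i < j → j ≤ h → H i j → DD a (f i) (f j) := by
    intro i j h1 h2 h3 h4
    exact hE _ _ (f1 i h1 (by omega)).1 (f2 i j h1 h2 h3) (f1 j (by omega) h3).2 (f3 i j h1 h2 h3 h4)
  have inj : ∀ i j, 1 ≤ i → i ≤ h → 1 ≤ j → j ≤ h → f i = f j → i = j := by
    intro i j h1 h2 h3 h4 h5
    rcases Nat.lt_trichotomy i j with h6 | h6 | h6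
    · have := f2 i j h1 h6 h4
      omega
    · exact h6
    · have := f2 j i h3 h6 h2
      omega
  have lef : ∀ i j, 1 ≤ i → i ≤ h → 1 ≤ j → j ≤ h → f i ≤ f j → i ≤ j := by
    intro i j h1 h2 h3 h4 h5
    by_contra h6
    have := f2 j i h3 (by omega) h2
    omega
  by_cases hp : ∃ p, 1 ≤ p ∧ p ≤ h ∧ f p = a
  · obtain ⟨p, p1, p2, p3⟩ := hp
    by_cases hq : ∃ q, 1 ≤ q ∧ q ≤ h ∧ f q = a + 1
    · obtain ⟨q, q1, q2, q3⟩ := hq
      have hpq : q = p + 1 := by
        have h1 : p < q := by
          by_contra h1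
          have : f q ≤ f p := by
            rcases Nat.eq_or_lt_of_le (Nat.not_lt.mp h1) with h2 | h2
            · rw [h2]
            · exact (f2 q p q1 h2 p2).le
          omega
        by_contra h2
        have h3 := f2 p (p + 1) p1 (by omega) (by omega)
        have h4 := f2 (p + 1) q (by omega) (by omega) q2
        omega
      subst hpq
      refine ⟨p, p1, by omega, fun i j h1 h2 h3 h4 => ?_, Or.inr (Or.inr ⟨p3, q3⟩)⟩
      rcases key i j h1 h2 h3 h4 with ⟨g1, g2⟩ | ⟨g1, g2⟩
      · left
        refine ⟨inj j (p + 1) (by omega) h3 (by omega) q2 (by omega),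
          lef i p h1 (by omega) p1 p2 (by omega)⟩
      · right
        refine ⟨inj i p h1 (by omega) p1 p2 (by omega),
          lef (p + 1) j (by omega) q2 (by omega) h3 (by omega)⟩
    · push Not at hq
      have hi : ∀ i j, 1 ≤ i → i < j → j ≤ h → H i j → i = p := by
        intro i j h1 h2 h3 h4
        rcases key i j h1 h2 h3 h4 with ⟨g1, g2⟩ | ⟨g1, g2⟩
        · exact absurd g1 (hq j (by omega) h3)
        · exact inj i p h1 (by omega) p1 p2 (by omega)
      have hp1 : p = 1 := by
        by_contra hne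
        obtain ⟨x, y, g1, g2, g3, g4, g5⟩ := hH (fun x => x = 1) ⟨1, le_rfl, by omega, rfl⟩
          ⟨2, by omega, hh, by
            show ¬ (2 : ℕ) = 1
            omega⟩
        try dsimp only at g5
        have := hi x y g1 g2 g3 g4
        have hx : ¬ x = 1 := by omega
        have hy : y = 1 := by tauto
        omega
      subst hp1
      refine ⟨1, le_rfl, by omega, fun i j h1 h2 h3 h4 => ?_, Or.inl rfl⟩
      have := hi i j h1 h2 h3 h4
      right
      exact ⟨this, by omega⟩
  · push Not at hp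
    by_cases hq : ∃ q, 1 ≤ q ∧ q ≤ h ∧ f q = a + 1
    · obtain ⟨q, q1, q2, q3⟩ := hq
      have hi : ∀ i j, 1 ≤ i → i < j → j ≤ h → H i j → j = q := by
        intro i j h1 h2 h3 h4
        rcases key i j h1 h2 h3 h4 with ⟨g1, g2⟩ | ⟨g1, g2⟩
        · exact inj j q (by omega) h3 q1 q2 (by omega)
        · exact absurd g1 (hp i h1 (by omega))
      have hq1 : q = h := by
        by_contra hne
        obtain ⟨x, y, g1, g2, g3, g4, g5⟩ := hH (fun x => x = h) ⟨h, by omega, le_rfl, rfl⟩
          ⟨1, by omega, by omega, by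
            show ¬ (1 : ℕ) = h
            omega⟩
        try dsimp only at g5
        have := hi x y g1 g2 g3 g4
        have hx : ¬ x = h := by omega
        have hy : y = h := by tauto
        omega
      refine ⟨h - 1, by omega, by omega, fun i j h1 h2 h3 h4 => ?_, Or.inr (Or.inl rfl)⟩
      have := hi i j h1 h2 h3 h4
      left
      omega
    · push Not at hq
      exfalso
      obtain ⟨x, y, g1, g2, g3, g4, g5⟩ := hH (fun x => x = 1) ⟨1, le_rfl, by omega, rfl⟩
        ⟨2, by omega, hh, by
          show ¬ (2 : ℕ) = 1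
          omega⟩
      rcases key x y g1 g2 g3 g4 with ⟨e1, _⟩ | ⟨e1, _⟩
      · exact hq y (by omega) g3 e1
      · exact hp x g1 (by omega) e1

/-- JOB HER -/
theorem her (hNec : StNec) (hDead : StDead) (hSuf : StSuf) (hStar : StStar) (hN4 : StN4)
    (hMon : StMon) (hJoin : StJoin) (hConc : StConc) : StHer := by
  intro n h k
  induction k using Nat.strong_induction_on generalizing h with
  | _ k ih =>
  intro H E hn hh hk hH hE hf hG
  by_cases n1 : n = 1
  · subst n1
    exact gd_one _ _
  by_cases n2 : n = 2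
  · subst n2
    exact gd_two _ _ hh
  by_cases h1 : h = 1
  · subst h1
    exact gd_single _ _
  obtain ⟨f, f1, f2, f3⟩ := hf
  by_cases hjt : ∃ c, 1 < c ∧ c < k ∧ ∀ i j, 1 ≤ i → i < c → c < j → j ≤ k → ¬ E i j
  · obtain ⟨c, c1, c2, c3⟩ := hjt
    obtain ⟨gL, gR⟩ := hJoin n k c E hn c1 c2 hE c3 hG
    have CL := con_left hE (by omega) c2.le c3
    have CR := con_right hE (by omega) c2.le c3
    by_cases him : ∃ p, 1 ≤ p ∧ p ≤ h ∧ f p = c
    · obtain ⟨p, p1, p2, p3⟩ := him
      have hjp : ∀ i j, 1 ≤ i → i < p → p < j → j ≤ h → ¬ H i j := by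
        intro i j a1 a2 a3 a4 a5
        have b1 := f2 i p a1 a2 p2
        have b2 := f2 p j p1 a3 a4
        exact c3 (f i) (f j) (f1 i a1 (by omega)).1 (by omega) (by omega) (f1 j (by omega) a4).2
          (f3 i j a1 (by omega) a4 a5)
      refine hConc n h p H hn p1 p2 hjp ?_ ?_
      · refine ih c c2 p H E hn p1 (by omega) (con_left hH p1 p2 hjp) CL
          ⟨f, fun i a1 a2 => ⟨(f1 i a1 (by omega)).1, ?_⟩, fun i j a1 a2 a3 => f2 i j a1 a2 (by omega),
            fun i j a1 a2 a3 a4 => f3 i j a1 a2 (by omega) a4⟩ gL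
        rcases Nat.eq_or_lt_of_le a2 with e | e
        · rw [e, p3]
        · have := f2 i p a1 e p2
          omega
      · have hge : ∀ i, p ≤ i → i ≤ h → c ≤ f i := by
          intro i a1 a2
          rcases Nat.eq_or_lt_of_le a1 with e | e
          · rw [← e, p3]
          · have := f2 p i p1 e a2
            omega
        refine ih (k - c + 1) (by omega) (h - p + 1) (fun i j => H (i + p - 1) (j + p - 1))
          (fun i j => E (i + c - 1) (j + c - 1)) hn (by omega) (by omega) (con_right hH p1 p2 hjp) CR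
          ⟨fun i => f (i + p - 1) - c + 1, fun i a1 a2 => ?_, fun i j a1 a2 a3 => ?_,
            fun i j a1 a2 a3 a4 => ?_⟩ gR
        · have b1 := hge (i + p - 1) (by omega) (by omega)
          have b2 := (f1 (i + p - 1) (by omega) (by omega)).2
          try dsimp only
          omega
        · have b1 := hge (i + p - 1) (by omega) (by omega)
          have b2 := f2 (i + p - 1) (j + p - 1) (by omega) (by omega) (by omega)
          try dsimp only
          omega
        · have b1 := hge (i + p - 1) (by omega) (by omega)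
          have b2 := hge (j + p - 1) (by omega) (by omega)
          have b3 := f3 (i + p - 1) (j + p - 1) (by omega) (by omega) (by omega) a4
          try dsimp only
          have e1 : f (i + p - 1) - c + 1 + c - 1 = f (i + p - 1) := by omega
          have e2 : f (j + p - 1) - c + 1 + c - 1 = f (j + p - 1) := by omega
          rw [e1, e2]
          exact b3
    · push Not at him
      obtain ⟨u, u1, u2, u3⟩ := cut f2 c
      by_cases hu : 1 ≤ u ∧ u < h
      · exfalso
        obtain ⟨i, j, g1, g2, g3, g4, g5⟩ := hH (fun x => x ≤ u) ⟨1, le_rfl, hh, hu.1⟩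
          ⟨h, hh, le_rfl, by
            show ¬ h ≤ u
            omega⟩
        try dsimp only at g5
        have g6 : i ≤ u ∧ u < j := by
          by_cases hi : i ≤ u
          · exact ⟨hi, not_le.mp (g5.mp hi)⟩
          · have : j ≤ u := by
              by_contra hj
              exact hi (g5.mpr hj)
            omega
        have b1 := u2 i g1 g6.1
        have b2 := u3 j g6.2 g3
        have b3 := him i g1 (by omega)
        exact c3 (f i) (f j) (f1 i g1 (by omega)).1 (by omega) b2 (f1 j (by omega) g3).2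
          (f3 i j g1 g2 g3 g4)
      · by_cases hu0 : u = 0
        · subst hu0
          refine ih (k - c + 1) (by omega) h H (fun i j => E (i + c - 1) (j + c - 1)) hn hh
            (by omega) hH CR ⟨fun i => f i - c + 1, fun i a1 a2 => ?_, fun i j a1 a2 a3 => ?_,
              fun i j a1 a2 a3 a4 => ?_⟩ gR
          · have b1 := u3 i (by omega) a2
            have b2 := (f1 i a1 a2).2
            try dsimp only
            omega
          · have b1 := u3 i (by omega) (by omega)
            have b2 := f2 i j a1 a2 a3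
            try dsimp only
            omega
          · have b1 := u3 i (by omega) (by omega)
            have b2 := u3 j (by omega) (by omega)
            have b3 := f3 i j a1 a2 a3 a4
            try dsimp only
            have e1 : f i - c + 1 + c - 1 = f i := by omega
            have e2 : f j - c + 1 + c - 1 = f j := by omega
            rw [e1, e2]
            exact b3
        · have hu1 : u = h := by omega
          subst hu1
          exact ih c c2 u H E hn hh (by omega) hH CL
            ⟨f, fun i a1 a2 => ⟨(f1 i a1 a2).1, u2 i a1 a2⟩, f2, f3⟩ gL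
  · have hJF : JF k E := by
      intro c c1 c2
      by_contra hne
      exact hjt ⟨c, c1, c2, fun i j a1 a2 a3 a4 a5 => hne ⟨i, j, a1, a2, a3, a4, a5⟩⟩
    have hkh : h ≤ k := by
      have b1 := mono_gap f2 (show 1 ≤ 1 by omega) hh (le_refl h)
      have b2 := (f1 1 le_rfl hh).1
      have b3 := (f1 h hh le_rfl).2
      omega
    have h3 : Gd 3 k E := mon_three hMon hk hE 3 (by omega) (by omega) hG
    rcases hNec k E (by omega) hE hJF with hd | ⟨a, a1, a2, a3⟩
    · exact absurd h3 (hDead k E hk hd)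
    · obtain ⟨a', b1, b2, b3, b4⟩ := sub_dd (by omega) hH f1 f2 f3 a3
      refine gd_mono b3 ?_
      by_cases n3 : n = 3
      · subst n3
        exact hSuf h a' b1 b2
      · refine hStar n h a' hn (by omega) ?_
        have h4 : Gd 4 k E := mon_three hMon hk hE 4 (by omega) (by omega) hG
        have h4' : Gd 4 k (DD a) := gd_mono (dd_sub hE a1 a2 a3) h4
        rcases b4 with b4 | b4 | ⟨b4, b5⟩
        · exact Or.inl b4
        · exact Or.inr b4
        · by_cases e1 : a = 1
          · left
            have c1 := mono_gap f2 (show 1 ≤ 1 by omega) b1 b2.le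
            have c2 := (f1 1 le_rfl hh).1
            omega
          · by_cases e2 : a + 1 < k
            · exact absurd h4' (hN4 k a (by omega) e2)
            · right
              have c1 := mono_gap f2 (show 1 ≤ a' + 1 by omega) (show a' + 1 ≤ h by omega) le_rfl
              have c2 := (f1 h hh le_rfl).2
              omega

end Pool.Agent.K7.H11.OGHER
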