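import Mathlib
import Pool.Agent.K7.H50.OG.Basic

set_option autoImplicit false

/-! OG job Y: the word `1^(a-1) 3^(v-1) 0 4^(k-v) 1^(k-1-a) 2`. -/

namespace Pool.Agent.K7.H11.OGY

open Pool.Agent.K7.H50.OG

/-- the word -/
def wd (k a v x : ℕ) : Fin 5 :=
  if x ≤ a - 1 then 1 else if x ≤ a + v - 2 then 3 else if x ≤ a + v - 1 then 0
  else if x ≤ a + k - 1 then 4 else if x ≤ 2 * k - 2 then 1 else 2

/-- the class of a vertex -/
def cl (u1 u2 u3 u4 u5 v : ℕ) : Fin 5 :=
  if v ≤ u1 then 1 else if v ≤ u2 then 3 else if v ≤ u3 then 0 else if v ≤ u4 then 4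
  else if v ≤ u5 then 1 else 2

theorem cuts {k a v : ℕ} {E : Gr} (ha : 1 < a) (hak : a + 1 < k) (hv : 2 ≤ v) (hva : v ≤ a)
    (hd : ¬ Dead k E) :
    ∃ u1 u2 u3 u4 u5 : ℕ, u1 ≤ u2 ∧ u2 ≤ u3 ∧ u3 ≤ u4 ∧ u4 ≤ u5 ∧ u5 ≤ k ∧
      u1 + 1 ≤ a ∧ u2 + 1 ≤ u1 + v ∧ u3 ≤ u2 + 1 ∧ u4 + v ≤ u3 + k ∧ u5 + 1 + a ≤ u4 + k ∧
      k ≤ u5 + 1 ∧ ∀ i j, 1 ≤ i → i < j → j ≤ k → E i j →
        rg (cl u1 u2 u3 u4 u5 i) (cl u1 u2 u3 u4 u5 j) := by
  have h1 := not_exists.1 hd (wd k a v)
  rw [not_not] at h1
  obtain ⟨f, hf1, hf2, hf3⟩ := h1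
  obtain ⟨u1, a1, b1, c1⟩ := cut hf2 (a - 1)
  obtain ⟨u2, a2, b2, c2⟩ := cut hf2 (a + v - 2)
  obtain ⟨u3, a3, b3, c3⟩ := cut hf2 (a + v - 1)
  obtain ⟨u4, a4, b4, c4⟩ := cut hf2 (a + k - 1)
  obtain ⟨u5, a5, b5, c5⟩ := cut hf2 (2 * k - 2)
  have le : ∀ {u u' T T' : ℕ}, u ≤ k → (∀ i, 1 ≤ i → i ≤ u → f i ≤ T) →
      (∀ i, u' < i → i ≤ k → T' < f i) → T ≤ T' → u ≤ u' := by
    intro u u' T T' h1 h2 h3 h4
    by_contra h5
    have h6 := h2 u (by omega) le_rfl
    have h7 := h3 u (by omega) h1
    omega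
  have l12 : u1 ≤ u2 := le a1 b1 c2 (by omega)
  have l23 : u2 ≤ u3 := le a2 b2 c3 (by omega)
  have l34 : u3 ≤ u4 := le a3 b3 c4 (by omega)
  have l45 : u4 ≤ u5 := le a4 b4 c5 (by omega)
  have r12 := run_card hf2 a2 l12 c1 b2
  have r23 := run_card hf2 a3 l23 c2 b3
  have r34 := run_card hf2 a4 l34 c3 b4
  have r45 := run_card hf2 a5 l45 c4 b5
  have hu1 : u1 + 1 ≤ a := by
    by_contra h
    have h2 := mono_gap hf2 (i := 1) (j := u1) le_rfl (by omega) a1
    have h3 := b1 u1 (by omega) le_rfl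
    have h4 := (hf1 1 le_rfl (by omega)).1
    omega
  have hk5 : k ≤ u5 + 1 := by
    by_contra h
    have h2 := mono_gap hf2 (i := u5 + 1) (j := k) (by omega) (by omega) le_rfl
    have h3 := c5 (u5 + 1) (by omega) (by omega)
    have h4 := (hf1 k (by omega) le_rfl).2
    omega
  refine ⟨u1, u2, u3, u4, u5, l12, l23, l34, l45, a5, hu1, by omega, by omega, by omega, by omega,
    hk5, ?_⟩
  have hcl : ∀ w, 1 ≤ w → w ≤ k → wd k a v (f w) = cl u1 u2 u3 u4 u5 w := by
    intro w hw hwk
    unfold wd cl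
    have e1 : f w ≤ a - 1 ↔ w ≤ u1 :=
      ⟨fun h => by by_contra h2; have := c1 w (by omega) hwk; omega, fun h => b1 w hw h⟩
    have e2 : f w ≤ a + v - 2 ↔ w ≤ u2 :=
      ⟨fun h => by by_contra h2; have := c2 w (by omega) hwk; omega, fun h => b2 w hw h⟩
    have e3 : f w ≤ a + v - 1 ↔ w ≤ u3 :=
      ⟨fun h => by by_contra h2; have := c3 w (by omega) hwk; omega, fun h => b3 w hw h⟩
    have e4 : f w ≤ a + k - 1 ↔ w ≤ u4 :=
      ⟨fun h => by by_contra h2; have := c4 w (by omega) hwk; omega, fun h => b4 w hw h⟩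
    have e5 : f w ≤ 2 * k - 2 ↔ w ≤ u5 :=
      ⟨fun h => by by_contra h2; have := c5 w (by omega) hwk; omega, fun h => b5 w hw h⟩
    simp only [e1, e2, e3, e4, e5]
  intro i j hi hij hj hE
  have h := hf3 i j hi hij hj hE
  simp only [hcl i hi (by omega), hcl j (by omega) hj] at h
  exact h

/-- JOB Y -/
theorem stY : StY := by
  intro k E a y v hL hy hyv hva hEyv
  by_cases hd : Dead k E
  · exact Or.inl hd
  right
  have ha := hL.ha
  have hb := hL.hb
  have hv : 2 ≤ v := by omega
  obtain ⟨u1, u2, u3, u4, u5, l12, l23, l34, l45, l5, s1, s2, s3, s4, s5, s6, hE⟩ :=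
    cuts ha (by omega) hv hva hd
  -- the classes
  have kA : ∀ i, i ≤ u1 → cl u1 u2 u3 u4 u5 i = 1 := by
    intro i h
    unfold cl
    rw [if_pos h]
  have kP : ∀ i, u1 < i → i ≤ u2 → cl u1 u2 u3 u4 u5 i = 3 := by
    intro i h h'
    unfold cl
    rw [if_neg (by omega), if_pos h']
  have kX : ∀ i, u2 < i → i ≤ u3 → cl u1 u2 u3 u4 u5 i = 0 := by
    intro i h h'
    unfold cl
    rw [if_neg (by omega), if_neg (by omega), if_pos h']
  have kQ : ∀ i, u3 < i → i ≤ u4 → cl u1 u2 u3 u4 u5 i = 4 := by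
    intro i h h'
    unfold cl
    rw [if_neg (by omega), if_neg (by omega), if_neg (by omega), if_pos h']
  have kB : ∀ i, u4 < i → i ≤ u5 → cl u1 u2 u3 u4 u5 i = 1 := by
    intro i h h'
    unfold cl
    rw [if_neg (by omega), if_neg (by omega), if_neg (by omega), if_neg (by omega), if_pos h']
  have kZ : ∀ i, u5 < i → cl u1 u2 u3 u4 u5 i = 2 := by
    intro i h
    unfold cl
    rw [if_neg (by omega), if_neg (by omega), if_neg (by omega), if_neg (by omega),
      if_neg (by omega)]
  have nAP : ∀ i j, 1 ≤ i → i < j → j ≤ k → E i j → i ≤ u1 → u1 < j → j ≤ u2 → False := by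
    intro i j h1 h2 h3 h4 h5 h6 h7
    have := hE i j h1 h2 h3 h4
    rw [kA i h5, kP j h6 h7] at this
    exact absurd this (by decide)
  have nPB : ∀ i j, 1 ≤ i → i < j → j ≤ k → E i j → u1 < i → i ≤ u2 → u4 < j → j ≤ u5 →
      False := by
    intro i j h1 h2 h3 h4 h5 h6 h7 h8
    have := hE i j h1 h2 h3 h4
    rw [kP i h5 h6, kB j h7 h8] at this
    exact absurd this (by decide)
  have nAQ : ∀ i j, 1 ≤ i → i < j → j ≤ k → E i j → i ≤ u1 → u3 < j → j ≤ u4 → False := by
    intro i j h1 h2 h3 h4 h5 h6 h7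
    have := hE i j h1 h2 h3 h4
    rw [kA i h5, kQ j h6 h7] at this
    exact absurd this (by decide)
  have nQB : ∀ i j, 1 ≤ i → i < j → j ≤ k → E i j → u3 < i → i ≤ u4 → u4 < j → j ≤ u5 →
      False := by
    intro i j h1 h2 h3 h4 h5 h6 h7 h8
    have := hE i j h1 h2 h3 h4
    rw [kQ i h5 h6, kB j h7 h8] at this
    exact absurd this (by decide)
  have nPX : ∀ i j, 1 ≤ i → i < j → j ≤ k → E i j → u1 < i → i ≤ u2 → u2 < j → j ≤ u3 →
      False := by
    intro i j h1 h2 h3 h4 h5 h6 h7 h8
    have := hE i j h1 h2 h3 h4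
    rw [kP i h5 h6, kX j h7 h8] at this
    exact absurd this (by decide)
  have nXZ : ∀ i j, 1 ≤ i → i < j → j ≤ k → E i j → u2 < i → i ≤ u3 → u5 < j → False := by
    intro i j h1 h2 h3 h4 h5 h6 h7
    have := hE i j h1 h2 h3 h4
    rw [kX i h5 h6, kZ j h7] at this
    exact absurd this (by decide)
  have nQZ : ∀ i j, 1 ≤ i → i < j → j ≤ k → E i j → u3 < i → i ≤ u4 → u5 < j → False := by
    intro i j h1 h2 h3 h4 h5 h6 h7
    have := hE i j h1 h2 h3 h4
    rw [kQ i h5 h6, kZ j h7] at this
    exact absurd this (by decide)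
  have e1 := hL.e1
  have ek := hL.ek
  have b1 : ∀ P : Prop, (1 ≤ u1 → P) → (u1 < 1 → P) → P := by
    intro P h1 h2
    rcases Nat.lt_or_ge u1 1 with h | h
    · exact h2 h
    · exact h1 h
  -- `x` is used
  have hx : u2 < u3 := by
    by_contra hx
    have hx' : u3 = u2 := by omega
    -- the vertices of the A part
    by_cases hall : u1 = 0 ∧ u4 = u5
    · obtain ⟨q1, q2⟩ := hall
      have q3 : u5 = k - 1 ∧ u3 + 1 = v := by omega
      exact nQZ a k (by omega) (by omega) le_rfl ek (by omega) (by omega) (by omega)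
    · -- the set of the vertices of the P and Q part
      have hPQ : u1 < u4 := by omega
      let S : ℕ → Prop := fun w => (u1 < w ∧ w ≤ u4) ∨ (w = k ∧ u5 < k ∧ u1 < a ∧ a ≤ u4)
      have hS := hL.con.closed S (i := u4) (by
        intro i j hi hij hj hEij
        by_cases hjk : j = k ∧ u5 < k
        · obtain ⟨hjk, h5k⟩ := hjk
          subst hjk
          have hia := hL.uk i hi hij hEij
          subst hia
          constructor
          · rintro (⟨g1, g2⟩ | ⟨g1, _⟩)
            · exact Or.inr ⟨rfl, h5k, g1, g2⟩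
            · omega
          · rintro (⟨g1, g2⟩ | ⟨_, _, g1, g2⟩)
            · omega
            · exact Or.inl ⟨g1, g2⟩
        · have hj5 : j ≤ u5 := by omega
          constructor
          · rintro (⟨g1, g2⟩ | ⟨g1, _⟩)
            · left
              refine ⟨by omega, ?_⟩
              by_contra g3
              by_cases g4 : i ≤ u2
              · exact nPB i j hi hij hj hEij g1 g4 (by omega) hj5
              · exact nQB i j hi hij hj hEij (by omega) g2 (by omega) hj5
            · omega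
          · rintro (⟨g1, g2⟩ | ⟨g1, _, _, _⟩)
            · left
              refine ⟨?_, by omega⟩
              by_contra g3
              by_cases g4 : j ≤ u2
              · exact nAP i j hi hij hj hEij (by omega) g1 g4
              · exact nAQ i j hi hij hj hEij (by omega) (by omega) g2
            · omega) (by omega) (by omega) (Or.inl ⟨hPQ, le_rfl⟩)
      by_cases q : 1 ≤ u1
      · rcases hS 1 le_rfl (by omega) with ⟨g1, _⟩ | ⟨g1, _⟩ <;> omega
      · rcases hS u5 (by omega) l5 with ⟨_, g1⟩ | ⟨g1, g2, _⟩ <;> omega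
  have hs : u3 = u2 + 1 := by omega
  -- the position of `x`
  have hsa : u3 = a + 1 := by
    rcases Nat.lt_trichotomy u3 a with h | h | h
    · exfalso
      have h1 : a ≤ u4 := by omega
      have h2 : u5 = k := by
        by_contra h2
        exact nQZ a k (by omega) (by omega) le_rfl ek (by omega) h1 (by omega)
      have h3 : a + 1 ≤ u4 := by omega
      have h4 : u4 = k := by
        by_contra h4
        exact nQB a k (by omega) (by omega) le_rfl ek (by omega) h1 (by omega) (by omega)
      have h5 : ¬ 1 ≤ u1 := by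
        intro h5
        exact nAQ 1 (a + 1) le_rfl (by omega) (by omega) e1 h5 (by omega) h3
      exact nPX y v hy hyv (by omega) hEyv (by omega) (by omega) (by omega) (by omega)
    · exfalso
      have h2 : u5 = k := by
        by_contra h2
        exact nXZ a k (by omega) (by omega) le_rfl ek (by omega) (by omega) (by omega)
      have h5 : ¬ 1 ≤ u1 := by
        intro h5
        have h6 : u4 = a := by
          by_contra h6
          exact nAQ 1 (a + 1) le_rfl (by omega) (by omega) e1 h5 (by omega) (by omega)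
        omega
      have h6 : v = a := by omega
      exact nPX y v hy hyv (by omega) hEyv (by omega) (by omega) (by omega) (by omega)
    · by_contra h'
      have h5 : ¬ 1 ≤ u1 := by
        intro h5
        exact nAP 1 (a + 1) le_rfl (by omega) (by omega) e1 h5 (by omega) (by omega)
      omega
  have h1 : 1 ≤ u1 := by
    by_contra h1
    exact nPX 1 (a + 1) le_rfl (by omega) (by omega) e1 (by omega) (by omega) (by omega) (by omega)
  have hk : u4 = k ∨ u5 < k := by
    by_contra hk
    push Not at hk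
    exact nPB a k (by omega) (by omega) le_rfl ek (by omega) (by omega) (by omega) (by omega)
  refine ⟨u1, min (u4 + 1) k, h1, by omega, by omega, by omega, by omega, ?_, ?_⟩
  · intro i j hi hij hj hia hja hEij
    unfold InA
    by_cases hjk : j = k
    · subst hjk
      have hia' := hL.uk i hi hij hEij
      omega
    · have hj5 : j ≤ u5 := by omega
      constructor
      · intro g
        by_contra g'
        push Not at g'
        -- i in A, j in P or Q
        by_cases g1 : i ≤ u1
        · by_cases g2 : j ≤ u2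
          · exact nAP i j hi hij hj hEij g1 (by omega) g2
          · exact nAQ i j hi hij hj hEij g1 (by omega) (by omega)
        · omega
      · intro g
        by_contra g'
        push Not at g'
        by_cases g1 : i ≤ u2
        · exact nPB i j hi hij hj hEij (by omega) g1 (by omega) hj5
        · exact nQB i j hi hij hj hEij (by omega) (by omega) (by omega) hj5
  · intro i h2 h3 h4
    exact nPX i (a + 1) (by omega) (by omega) (by omega) h4 (by omega) (by omega) (by omega)
      (by omega)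

end Pool.Agent.K7.H11.OGY
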